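import Pool.Agent.TH245.Peak.Fin

set_option autoImplicit false

open Pool.Agent.TH245.Peak

namespace Pool.Agent.Results.MP_129fce_an.PeakNotZero

/-- **Negative answer to Q1, for every exponent.** For every `0 < α ≤ 1` there is a countable closed
subset `E` of the unit circle which is a peak set for the analytic Lipschitz class `A_α` but is not
a zero set for the Gevrey class `G_α`; hence `𝒫_α ≠ Z(G_α)` for every `0 < α ≤ 1`. -/
theorem result : ∀ α : ℝ, 0 < α → α ≤ 1 →
    ∃ E : Set ℂ, E.Countable ∧ E ∈ PeakSets α ∧ E ∉ ZeroSets α := by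
  intro α h0 h1
  obtain ⟨E, hE, hc, hn⟩ := Con.main h0 h1
  exact ⟨E, hc, hE, hn⟩

end Pool.Agent.Results.MP_129fce_an.PeakNotZero
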